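import Pool.Agent.Helper6.LPA.St

/-!
# Project LPA, module CMB: sums over families of sets
-/

set_option autoImplicit false

noncomputable section

namespace Pool.Agent.Helper70.LPA

open Finset
open Pool.Agent.Helper6.LP Pool.Agent.Helper6.LPA

private lemma npr {Q T : Finset ℕ} {g : ℕ → ℝ} (hg : ∀ l ∈ Q, 0 ≤ g l) (hT : T ⊆ Q) :
    0 ≤ ∏ l ∈ T, g l := prod_nonneg fun l hl => hg l (hT hl)

private lemma pow1 (Q : Finset ℕ) (g : ℕ → ℝ) :
    ∑ T ∈ Q.powerset, ∏ l ∈ T, g l = ∏ l ∈ Q, (1 + g l) := (prod_one_add Q).symm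

private lemma pow2 (Q : Finset ℕ) (g : ℕ → ℝ) :
    ∑ T ∈ Q.powerset, ∑ T' ∈ Q.powerset, ∏ l ∈ T ∪ T', g l = ∏ l ∈ Q, (1 + 3 * g l) := by
  induction Q using Finset.induction_on with
  | empty => simp
  | insert a Q ha ih =>
    have hu : ∀ T ∈ Q.powerset, ∀ T' ∈ Q.powerset, a ∉ T ∪ T' := by
      intro T hT T' hT' h
      rcases mem_union.1 h with h | h
      · exact ha (mem_powerset.1 hT h)
      · exact ha (mem_powerset.1 hT' h)
    rw [sum_powerset_insert ha, prod_insert ha, ← ih, ← sum_add_distrib, mul_sum]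
    refine sum_congr rfl fun T hT => ?_
    rw [sum_powerset_insert ha, sum_powerset_insert ha, ← sum_add_distrib, ← sum_add_distrib,
      ← sum_add_distrib, mul_sum]
    refine sum_congr rfl fun T' hT' => ?_
    rw [union_insert, insert_union, insert_union, union_insert, insert_idem,
      prod_insert (hu T hT T' hT')]
    ring

private lemma onl {Q : Finset ℕ} {g : ℕ → ℝ} (hg : ∀ l ∈ Q, 0 ≤ g l) {a : ℕ} (ha : a ∈ Q) :
    ∑ T ∈ Q.powerset, (if a ∈ T then ∏ l ∈ T, g l else 0) ≤ g a * ∏ l ∈ Q, (1 + g l) := by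
  have hQ : insert a (Q.erase a) = Q := insert_erase ha
  have hn : a ∉ Q.erase a := notMem_erase a Q
  have e : ∑ T ∈ Q.powerset, (if a ∈ T then ∏ l ∈ T, g l else 0) =
      g a * ∏ l ∈ Q.erase a, (1 + g l) := by
    conv_lhs => rw [← hQ]
    rw [sum_powerset_insert hn, ← pow1, mul_sum]
    have e1 : ∑ T ∈ (Q.erase a).powerset, (if a ∈ T then ∏ l ∈ T, g l else 0) = 0 :=
      sum_eq_zero fun T hT => if_neg fun h => hn (mem_powerset.1 hT h)
    rw [e1, zero_add]
    refine sum_congr rfl fun T hT => ?_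
    rw [if_pos (mem_insert_self a T), prod_insert (fun h => hn (mem_powerset.1 hT h))]
  rw [e]
  refine mul_le_mul_of_nonneg_left ?_ (hg a ha)
  conv_rhs => rw [← hQ]
  rw [prod_insert hn]
  refine le_mul_of_one_le_left (prod_nonneg fun l hl => ?_) (by linarith [hg a ha])
  have := hg l (mem_of_mem_erase hl)
  linarith

/-- Module CMB. -/
theorem hCMB : StCMB := by
  classical
  intro Q F g h hgh hF
  have hg : ∀ l ∈ Q, 0 ≤ g l := fun l hl => (hgh l hl).1
  have hh : ∀ l ∈ Q, 0 ≤ h l := fun l hl => (hgh l hl).2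
  have hFQ : F ⊆ Q.powerset := fun T hT => mem_powerset.2 (hF T hT)
  refine ⟨?_, ?_, ?_⟩
  · rw [← pow1]
    exact sum_le_sum_of_subset_of_nonneg hFQ fun T hT _ => npr hg (mem_powerset.1 hT)
  · have h1 : ∑ T ∈ F, ∑ T' ∈ F, ∏ l ∈ T ∪ T', g l ≤
        ∑ T ∈ Q.powerset, ∑ T' ∈ Q.powerset, ∏ l ∈ T ∪ T', g l := by
      refine (sum_le_sum fun T hT => sum_le_sum_of_subset_of_nonneg hFQ fun T' hT' _ => ?_).trans
        (sum_le_sum_of_subset_of_nonneg hFQ fun T hT _ => sum_nonneg fun T' hT' => ?_)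
      · exact npr hg (union_subset (hF T hT) (mem_powerset.1 hT'))
      · exact npr hg (union_subset (mem_powerset.1 hT) (mem_powerset.1 hT'))
    have h2 : ∏ l ∈ Q, (1 + 3 * g l) ≤ ∏ l ∈ Q, (1 + 4 * g l) := by
      refine prod_le_prod (fun l hl => ?_) fun l hl => ?_
      · have := hg l hl
        linarith
      · have := hg l hl
        linarith
    have h3 := h1.trans (pow2 Q g).le
    refine le_trans (le_of_eq ?_) (h3.trans h2)
    refine sum_congr rfl fun T _ => sum_congr rfl fun T' _ => ?_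
    congr
  · have hn : ∀ T ∈ Q.powerset, ∀ T' ∈ Q.powerset, ∀ l : ℕ,
        0 ≤ (if l ∈ T then ∏ l ∈ T, g l else 0) * (if l ∈ T' then ∏ l ∈ T', h l else 0) := by
      intro T hT T' hT' l
      have e1 := npr hg (mem_powerset.1 hT)
      have e2 := npr hh (mem_powerset.1 hT')
      split_ifs <;> simp [mul_nonneg e1 e2]
    calc ∑ T ∈ F, ∑ T' ∈ F.filter (fun T' => ¬ Disjoint T T'), (∏ l ∈ T, g l) * ∏ l ∈ T', h l
        ≤ ∑ T ∈ F, ∑ T' ∈ F, ∑ l ∈ Q,
          (if l ∈ T then ∏ l ∈ T, g l else 0) * (if l ∈ T' then ∏ l ∈ T', h l else 0) := by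
          refine sum_le_sum fun T hT => ?_
          rw [sum_filter]
          refine sum_le_sum fun T' hT' => ?_
          by_cases hd : Disjoint T T'
          · rw [if_neg (not_not.2 hd)]
            exact sum_nonneg fun l _ => hn T (hFQ hT) T' (hFQ hT') l
          · rw [if_pos hd]
            obtain ⟨a, ha, ha'⟩ := not_disjoint_iff.1 hd
            have h0 := single_le_sum (f := fun l => (if l ∈ T then ∏ l ∈ T, g l else 0) *
              (if l ∈ T' then ∏ l ∈ T', h l else 0)) (fun l _ => hn T (hFQ hT) T' (hFQ hT') l)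
              (hF T hT ha)
            simp only [if_pos ha, if_pos ha'] at h0
            exact h0
      _ ≤ ∑ T ∈ Q.powerset, ∑ T' ∈ Q.powerset, ∑ l ∈ Q,
          (if l ∈ T then ∏ l ∈ T, g l else 0) * (if l ∈ T' then ∏ l ∈ T', h l else 0) := by
          refine (sum_le_sum fun T hT => sum_le_sum_of_subset_of_nonneg hFQ fun T' hT' _ => ?_).trans
            (sum_le_sum_of_subset_of_nonneg hFQ fun T hT _ => sum_nonneg fun T' hT' => ?_)
          · exact sum_nonneg fun l _ => hn T (hFQ hT) T' hT' l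
          · exact sum_nonneg fun l _ => hn T hT T' hT' l
      _ = ∑ l ∈ Q, (∑ T ∈ Q.powerset, (if l ∈ T then ∏ l ∈ T, g l else 0)) *
          ∑ T' ∈ Q.powerset, (if l ∈ T' then ∏ l ∈ T', h l else 0) := by
          rw [sum_congr rfl fun T _ => sum_comm, sum_comm]
          refine sum_congr rfl fun l _ => ?_
          rw [sum_mul]
          exact sum_congr rfl fun T _ => (mul_sum _ _ _).symm
      _ ≤ ∑ l ∈ Q, (g l * ∏ l ∈ Q, (1 + g l)) * (h l * ∏ l ∈ Q, (1 + h l)) := by
          refine sum_le_sum fun l hl => mul_le_mul (onl hg hl) (onl hh hl) ?_ ?_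
          · refine sum_nonneg fun T hT => ?_
            have e2 := npr hh (mem_powerset.1 hT)
            split_ifs
            · exact e2
            · exact le_rfl
          · refine mul_nonneg (hg l hl) (prod_nonneg fun k hk => ?_)
            have := hg k hk
            linarith
      _ = _ := by
          rw [sum_mul]
          exact sum_congr rfl fun l _ => by ring

end Pool.Agent.Helper70.LPA
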